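import Pool.Agent.Lib.H46M.Y

/-!
# Markov polynomials: log-concavity on nine principal lines near the sides (MP_251428_co, Q1, partial result)

Let `M = N / (x ^ α 0 * y ^ α 1 * z ^ α 2)` be a Markov polynomial, `N` divisible by none of `x`, `y`, `z`. Let `i`,
`j`, `k` be the variables in an order with `α i ≤ α j ≤ α k`. The weights are log-concave on the four principal lines
with `k`-exponent `0, 2, 4, 6`, on the three with `j`-exponent `0, 2, 4` and on the two with `i`-exponent `0, 2`; on
the three lines with exponent `2` of a variable strictly.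

The definitions are in `Pool/Agent/Lib/H46M/Defs.lean`: `K` is the field of rational functions in `x 0 = x`,
`x 1 = y`, `x 2 = z`, `MarkovTriple` is the set of the triples reached from `(x, y, z)`, `Reduced M N α` says that
`M = N / (x ^ α 0 * y ^ α 1 * z ^ α 2)` with `N` divisible by none of `x`, `y`, `z`. Proof: up to a permutation of the
variables the Markov polynomials are `x` and the `M_(p, q)` of the Farey tree (`p`, `q` coprime) with
`α = (p - 1, q - 1, p + q - 1)`; explicit formulas for the weights on the nine lines in `p` and `q`, proved by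
induction along the tree (`Pool/Agent/Lib/H79W`, `Pool/Agent/Lib/H46M`).
-/

set_option autoImplicit false

namespace Pool.Agent.Results.MP_251428_co.BoundaryLines

open MvPolynomial H46M

/-- Let `M` be a Markov polynomial (an entry of a Markov triple; all permutations of a Markov triple are Markov
triples). There is exactly one pair `(N, α)` with `M = N / (x ^ α 0 * y ^ α 1 * z ^ α 2)`, `N` a polynomial divisible
by none of `x`, `y`, `z`. Let `i`, `j`, `k` be the variables in any order. The three coefficients in each inequality
belong to consecutive lattice points of a principal line.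
(1) For `f` with `f i = 2` (the line next to a side): log-concavity, strict if the middle coefficient is not zero.
(2) If `α i ≤ α j ≤ α k`: log-concavity on the lines with exponent at most `7` of the variable `k` (the exponents
are even: `0, 2, 4, 6`), at most `5` of `j` and at most `3` of `i`. -/
theorem result : ∀ M B C : K, MarkovTriple M B C →
    (∃! p : MvPolynomial (Fin 3) ℤ × (Fin 3 → ℤ), Reduced M p.1 p.2) ∧
    ∀ (N : MvPolynomial (Fin 3) ℤ) (α : Fin 3 → ℤ), Reduced M N α →
      ∀ i j k : Fin 3, i ≠ j → j ≠ k → i ≠ k → ∀ f : Fin 3 →₀ ℕ,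
        (f i = 2 → N.coeff (f + Finsupp.single j 2 + Finsupp.single k 2) ≠ 0 →
          N.coeff (f + Finsupp.single j 4) * N.coeff (f + Finsupp.single k 4) <
            N.coeff (f + Finsupp.single j 2 + Finsupp.single k 2) ^ 2) ∧
        (f i = 2 → N.coeff (f + Finsupp.single j 4) * N.coeff (f + Finsupp.single k 4) ≤
            N.coeff (f + Finsupp.single j 2 + Finsupp.single k 2) ^ 2) ∧
        (α i ≤ α j → α j ≤ α k →
          (f k ≤ 7 → N.coeff (f + Finsupp.single i 4) * N.coeff (f + Finsupp.single j 4) ≤
            N.coeff (f + Finsupp.single i 2 + Finsupp.single j 2) ^ 2) ∧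
          (f j ≤ 5 → N.coeff (f + Finsupp.single i 4) * N.coeff (f + Finsupp.single k 4) ≤
            N.coeff (f + Finsupp.single i 2 + Finsupp.single k 2) ^ 2) ∧
          (f i ≤ 3 → N.coeff (f + Finsupp.single j 4) * N.coeff (f + Finsupp.single k 4) ≤
            N.coeff (f + Finsupp.single j 2 + Finsupp.single k 2) ^ 2)) := by
  intro M B C h
  obtain ⟨h1, h2⟩ := full h
  refine ⟨h1, fun N α hN i j k hij hjk hik f => ⟨fun hf h0 => ?_, fun hf => ?_, fun ha hb => ?_⟩⟩
  · rcases (h2 N α hN).1 i j k hij hjk hik f hf with h3 | ⟨-, h4⟩
    · exact h3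
    · exact absurd h4 h0
  · rcases (h2 N α hN).1 i j k hij hjk hik f hf with h3 | ⟨h3, h4⟩
    · exact h3.le
    · rw [h3]
      exact sq_nonneg _
  · obtain ⟨l1, l2, l3⟩ := (h2 N α hN).2 i j k hij hjk hik ha hb
    exact ⟨l1 f, l2 f, l3 f⟩

end Pool.Agent.Results.MP_251428_co.BoundaryLines
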