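import Pool.Agent.Lib.H79W.G

/-!
# Markov polynomials: log-concavity on the diagonal lines of any given depth (MP_251428_co, Q1, partial result)

Let `M = N / (x ^ α 0 * y ^ α 1 * z ^ α 2)` be a Markov polynomial, `N` divisible by none of `x`, `y`, `z`. Let `i`,
`j`, `k` be the variables in an order with `α i ≤ α j ≤ α k`. The weights are log-concave on the diagonal line with
`k`-exponent `2 l` for every `l` with `8 l² + l ≤ α i + 2`. So the number of the highest diagonal lines on which
log-concavity is proved grows like the square root of `α i / 8`, and for every depth `l` only Markov polynomials with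
small `α i` are left. In the labelling of the problem file `α = (p - 1, q - 1, p + q - 1)` for `M_{p/q}`, up to the order
of the variables, and the line is the diagonal line number `l` below the highest one.

The definitions are in `Pool/Agent/Lib/H46M/Defs.lean`: `K` is the field of rational functions in `x 0 = x`,
`x 1 = y`, `x 2 = z`, `MarkovTriple` is the set of the triples reached from `(x, y, z)`, `Reduced M N α` says that
`M = N / (x ^ α 0 * y ^ α 1 * z ^ α 2)` with `N` divisible by none of `x`, `y`, `z`.

Proof: with `s = a + b` and `(s + c) N = ∑ c^l s^(p+q-2l) T_l`, the generating series `T` satisfies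
`T_new = T_1 T_2 - a^u b^v ε^(u+v) T_old` along the Farey tree, and `|T - (1 + a ε)^q (1 + b ε)^p|` is dominated
coefficientwise by an explicit majorant; hence the coefficients of `S = T / (1 + s ε)` are `C(q,k) C(p,l-k)` up to a
factor between `2/3` and `4/3`, and `s^(p+q-1-2l) S_l` is log-concave by an exact variance criterion.
-/

set_option autoImplicit false

namespace Pool.Agent.Results.MP_251428_co.DeepDiagonals

open MvPolynomial H46M

/-- Let `M` be a Markov polynomial (an entry of a Markov triple; all permutations of a Markov triple are Markov
triples). There is exactly one pair `(N, α)` with `M = N / (x ^ α 0 * y ^ α 1 * z ^ α 2)`, `N` a polynomial divisible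
by none of `x`, `y`, `z`. Let `i`, `j`, `k` be the variables in an order with `α i ≤ α j ≤ α k`, and let `l` be a natural
number with `8 l² + l ≤ α i + 2`. Then the weights are log-concave on the principal line with `k`-exponent
`2 l`: the three coefficients in the inequality belong to consecutive lattice points of this line. -/
theorem result : ∀ M B C : K, MarkovTriple M B C →
    (∃! p : MvPolynomial (Fin 3) ℤ × (Fin 3 → ℤ), Reduced M p.1 p.2) ∧
    ∀ (N : MvPolynomial (Fin 3) ℤ) (α : Fin 3 → ℤ), Reduced M N α →
      ∀ i j k : Fin 3, i ≠ j → j ≠ k → i ≠ k → α i ≤ α j → α j ≤ α k →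
        ∀ l : ℕ, 8 * (l : ℤ) ^ 2 + l ≤ α i + 2 → ∀ f : Fin 3 →₀ ℕ, f k = 2 * l →
          N.coeff (f + Finsupp.single i 4) * N.coeff (f + Finsupp.single j 4) ≤
            N.coeff (f + Finsupp.single i 2 + Finsupp.single j 2) ^ 2 := by
  intro M B C h
  obtain ⟨h1, h2⟩ := H79W.deep h
  exact ⟨h1, fun N α hN i j k hij hjk hik ha hb l hl f hf =>
    h2 N α hN i j k hij hjk hik ha hb l hl f (by omega)⟩

end Pool.Agent.Results.MP_251428_co.DeepDiagonals
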