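import Pool.Agent.Lib.H79W.N2

/-!
# Markov polynomials: the middle part of every diagonal line (MP_251428_co, Q1, partial result)

Let `M = N / (x ^ α 0 * y ^ α 1 * z ^ α 2)` be any Markov polynomial, `N` divisible by none of `x`, `y`, `z`, and let
`k` be the variable with the largest exponent `α k`. The principal line with `k`-exponent `2 l` is the diagonal line
number `l` below the highest one. On every such line the inequality of log-concavity holds at all lattice points except
at most about the `l² / 2 + l` points nearest to each end: it holds at the point with exponents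
`2 (u + 1), 2 (v + 1), 2 l` if `r = u + 2 - l` and `s = v + 2 - l` are positive and `l² (r + s) ≤ 4 r s`, in particular if
`r, s ≥ l² / 2`. There is no condition on `M`.

The definitions are in `Pool/Agent/Lib/H46M/Defs.lean`: `K` is the field of rational functions in `x 0 = x`,
`x 1 = y`, `x 2 = z`, `MarkovTriple` is the set of the triples reached from `(x, y, z)`, `Reduced M N α` says that
`M = N / (x ^ α 0 * y ^ α 1 * z ^ α 2)` with `N` divisible by none of `x`, `y`, `z`.

Proof: with `a, b, c` the squares of the variables (`c` the one of `k`) and `α = (p - 1, q - 1, p + q - 1)` the coefficient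
of `c^l` in `N` is `(a + b)^(p+q-1-2l) S_l`, and `S_l` has nonnegative coefficients, because `∑ ε^l S_l` is an entry of a
product of matrices with nonnegative entries. By an exact criterion `(1 + X)^D S` satisfies the inequality at a point if
the variance of an index in `0, …, l` is small enough; the variance is at most `l² / 4`.
-/

set_option autoImplicit false

namespace Pool.Agent.Results.MP_251428_co.DiagonalMiddles

open MvPolynomial H46M

/-- Let `M` be a Markov polynomial (an entry of a Markov triple; all permutations of a Markov triple are Markov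
triples). There is exactly one pair `(N, α)` with `M = N / (x ^ α 0 * y ^ α 1 * z ^ α 2)`, `N` a polynomial divisible
by none of `x`, `y`, `z`. Let `i`, `j`, `k` be the variables in an order with `α i ≤ α k` and `α j ≤ α k`, and let
`2 u`, `2 v`, `2 l` be the exponents of the variables `i`, `j`, `k` at `f`. If `r = u + 2 - l` and `s = v + 2 - l` are
positive and `l² (r + s) ≤ 4 r s`, then the inequality of log-concavity holds at the three consecutive lattice points
`f + 4 e_i`, `f + 2 e_i + 2 e_j`, `f + 4 e_j` of the principal line with `k`-exponent `2 l`. -/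
theorem result : ∀ M B C : K, MarkovTriple M B C →
    (∃! p : MvPolynomial (Fin 3) ℤ × (Fin 3 → ℤ), Reduced M p.1 p.2) ∧
    ∀ (N : MvPolynomial (Fin 3) ℤ) (α : Fin 3 → ℤ), Reduced M N α →
      ∀ i j k : Fin 3, i ≠ j → j ≠ k → i ≠ k → α i ≤ α k → α j ≤ α k →
        ∀ (u v l : ℕ) (f : Fin 3 →₀ ℕ), f i = 2 * u → f j = 2 * v → f k = 2 * l → l < u + 2 → l < v + 2 →
          (l : ℤ) ^ 2 * (u + v + 4 - 2 * l) ≤ 4 * ((u + 2 - l) * (v + 2 - l)) →
          N.coeff (f + Finsupp.single i 4) * N.coeff (f + Finsupp.single j 4) ≤
            N.coeff (f + Finsupp.single i 2 + Finsupp.single j 2) ^ 2 := by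
  intro M B C h
  obtain ⟨h1, h2⟩ := H79W.mid h
  exact ⟨h1, fun N α hN i j k hij hjk hik ha hb u v l f hu hv hl c1 c2 c3 =>
    h2 N α hN i j k hij hjk hik ha hb f u v l hu hv hl ⟨c1, c2, c3⟩⟩

end Pool.Agent.Results.MP_251428_co.DiagonalMiddles
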