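import Pool.Agent.Lib.H53M.Expand
import Pool.Agent.Lib.H53M.PE

/-!
# The Markov polynomials of the Pell chain (MP_251428_co, Q1, partial result)

With `w = (x² + y²) / z` the Markov polynomials `v_0 = x`, `v_1 = y`, `v_{m+2} = (v_{m+1}² + w²) / v_m` are those
which occur in the triples together with `w`; their values at `x = y = z = 1` are the odd-indexed Pell numbers. For
all of them the weights are weakly log-concave: log-concave along all diagonal, all vertical and all horizontal lines.

Proof: explicit coefficients (`Lib/H53M/Chain`, `Expand`). In the level `s` (lines `i + j = n + 1 + s`) they are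
`∑ p, C(n - p, s - 1) C(s + p, s) C(2 s, j - p)`. Diagonals: convolutions with binomial rows. Vertical lines `i ≤ n + 1`
and horizontal lines `j ≤ n`: comparison of three levels by pairs `(p, q)`, `(q + 1, p - 1)` (`Main`). The other lines:
after a change of variables the coefficient with `i = n + 1 + r` is `∑ c, C(c - 1, r - 1) g s c`, and the three levels
are compared by pairs `(c, d)`, `(d - 1, c + 1)` (`PA` - `PE`).
-/

set_option autoImplicit false

namespace Pool.Agent.Results.MP_251428_co.PellChain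

open Finset Pool.Agent.Lib

/-- The field of rational functions in three variables over the rational numbers. -/
abbrev Rat3 : Type := FractionRing (MvPolynomial (Fin 3) ℚ)

/-- The variable `x`. -/
noncomputable def x : Rat3 := algebraMap (MvPolynomial (Fin 3) ℚ) Rat3 (MvPolynomial.X 0)

/-- The variable `y`. -/
noncomputable def y : Rat3 := algebraMap (MvPolynomial (Fin 3) ℚ) Rat3 (MvPolynomial.X 1)

/-- The variable `z`. -/
noncomputable def z : Rat3 := algebraMap (MvPolynomial (Fin 3) ℚ) Rat3 (MvPolynomial.X 2)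

/-- The triples which are reached from `(x, y, z)` by moves `(X, Y, Z) ↦ (X, Y, (X² + Y²) / Z)` and
permutations. Their entries are the Markov polynomials. -/
inductive Triple : Rat3 → Rat3 → Rat3 → Prop
  | start : Triple x y z
  | move (X Y Z : Rat3) : Triple X Y Z → Triple X Y ((X ^ 2 + Y ^ 2) / Z)
  | swap (X Y Z : Rat3) : Triple X Y Z → Triple Y X Z
  | swap' (X Y Z : Rat3) : Triple X Y Z → Triple X Z Y

/-- The third entry of the triple next to `(x, y, z)`. -/
noncomputable def w : Rat3 := (x ^ 2 + y ^ 2) / z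

/-- The Pell chain `v_0 = x`, `v_1 = y`, `v_{m+2} = (v_{m+1}² + w²) / v_m`. -/
noncomputable def pell : ℕ → Rat3
  | 0 => x
  | 1 => y
  | m + 2 => (pell (m + 1) ^ 2 + w ^ 2) / pell m

/-- `A i j` are the weights of `M`: the numerator of `M` is the polynomial
`∑ A i j x^(2i) y^(2j) z^(2(d-i-j))`, which is divisible by none of `x`, `y`, `z`; `A i j = 0` for `i + j > d`. -/
def Weights (M : Rat3) (A : ℕ → ℕ → ℕ) (d : ℕ) : Prop :=
  (∀ i j, d < i + j → A i j = 0) ∧
  (∃ α β γ : ℤ, M * (x ^ α * y ^ β * z ^ γ) = ∑ i ∈ range (d + 1), ∑ j ∈ range (d + 1 - i),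
    (A i j : Rat3) * x ^ (2 * i) * y ^ (2 * j) * z ^ (2 * (d - i - j))) ∧
  (∃ j, A 0 j ≠ 0) ∧ (∃ i, A i 0 ≠ 0) ∧ (∃ i j, i + j = d ∧ A i j ≠ 0)

lemma x_ne : x ≠ 0 := by
  unfold x
  intro h
  rw [FaithfulSMul.algebraMap_eq_zero_iff] at h
  exact MvPolynomial.X_ne_zero 0 h

lemma y_ne : y ≠ 0 := by
  unfold y
  intro h
  rw [FaithfulSMul.algebraMap_eq_zero_iff] at h
  exact MvPolynomial.X_ne_zero 1 h

lemma z_ne : z ≠ 0 := by
  unfold z
  intro h
  rw [FaithfulSMul.algebraMap_eq_zero_iff] at h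
  exact MvPolynomial.X_ne_zero 2 h

lemma poly_sq (P Q : MvPolynomial (Fin 3) ℚ) (h : P ^ 2 + Q ^ 2 = 0) : Q = 0 := by
  refine MvPolynomial.funext fun v => ?_
  have h1 := congrArg (MvPolynomial.eval v) h
  simp only [map_add, map_pow, map_zero] at h1
  rw [map_zero]
  nlinarith [sq_nonneg (MvPolynomial.eval v P), sq_nonneg (MvPolynomial.eval v Q)]

/-- the field is formally real. -/
lemma real_sq (a b : Rat3) (h : a ^ 2 + b ^ 2 = 0) : b = 0 := by
  obtain ⟨p, q, hq, rfl⟩ := IsFractionRing.div_surjective (A := MvPolynomial (Fin 3) ℚ) a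
  obtain ⟨r, s, hs, rfl⟩ := IsFractionRing.div_surjective (A := MvPolynomial (Fin 3) ℚ) b
  have hq0 : q ≠ 0 := nonZeroDivisors.ne_zero hq
  have hs0 : s ≠ 0 := nonZeroDivisors.ne_zero hs
  have hq1 : algebraMap (MvPolynomial (Fin 3) ℚ) Rat3 q ≠ 0 := by
    intro h; rw [FaithfulSMul.algebraMap_eq_zero_iff] at h; exact hq0 h
  have hs1 : algebraMap (MvPolynomial (Fin 3) ℚ) Rat3 s ≠ 0 := by
    intro h; rw [FaithfulSMul.algebraMap_eq_zero_iff] at h; exact hs0 h
  have h2 : algebraMap (MvPolynomial (Fin 3) ℚ) Rat3 ((p * s) ^ 2 + (r * q) ^ 2) = 0 := by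
    have e : algebraMap (MvPolynomial (Fin 3) ℚ) Rat3 ((p * s) ^ 2 + (r * q) ^ 2) =
        ((algebraMap _ Rat3 p / algebraMap _ Rat3 q) ^ 2 +
          (algebraMap _ Rat3 r / algebraMap _ Rat3 s) ^ 2) *
        (algebraMap _ Rat3 q * algebraMap _ Rat3 s) ^ 2 := by
      simp only [map_add, map_pow, map_mul]
      field_simp
    rw [e, h, zero_mul]
  rw [FaithfulSMul.algebraMap_eq_zero_iff] at h2
  have h3 := poly_sq _ _ h2
  have h4 : r = 0 := by
    rcases mul_eq_zero.1 h3 with h | h
    · exact h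
    · exact absurd h hq0
  rw [h4, map_zero, zero_div]

lemma w_ne : w ≠ 0 := by
  unfold w
  refine div_ne_zero (fun h => y_ne (real_sq _ _ h)) z_ne

lemma w_mul : w * z = x ^ 2 + y ^ 2 := by
  unfold w
  exact div_mul_cancel₀ _ z_ne

lemma pell_ne (m : ℕ) : pell m ≠ 0 ∧ pell (m + 1) ≠ 0 := by
  induction m with
  | zero => exact ⟨by simp only [pell]; exact x_ne, by simp only [pell]; exact y_ne⟩
  | succ m ih =>
    refine ⟨ih.2, ?_⟩
    rw [show m + 1 + 1 = m + 2 from rfl, pell]
    exact div_ne_zero (fun h => w_ne (real_sq _ _ h)) ih.1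

lemma pell_triple (m : ℕ) : Triple w (pell m) (pell (m + 1)) := by
  induction m with
  | zero =>
    have h := Triple.move _ _ _ Triple.start
    have h1 := Triple.swap _ _ _ (Triple.swap' _ _ _ h)
    simp only [pell]
    exact h1
  | succ m ih =>
    -- (w, v m, v (m+1)) → (v (m+1), w, v m)
    have h1 := Triple.swap _ _ _ (Triple.swap' _ _ _ ih)
    have h2 := Triple.move _ _ _ h1
    -- (v (m+1), w, v (m+2))
    have h3 := Triple.swap _ _ _ h2
    rw [show m + 1 + 1 = m + 2 from rfl, pell]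
    exact h3

/-- For every `n` the Markov polynomials `w`, `v_{n+1}`, `v_{n+2}` form a triple, and the weights of `v_{n+2}` (degree
`d = 2n + 2`) are log-concave along every diagonal, every vertical and every horizontal line. -/
theorem result : ∀ n : ℕ, Triple w (pell (n + 1)) (pell (n + 2)) ∧
    ∃ A : ℕ → ℕ → ℕ, Weights (pell (n + 2)) A (2 * n + 2) ∧
      (∀ i j, A i (j + 2) * A (i + 2) j ≤ A (i + 1) (j + 1) ^ 2) ∧
      (∀ i j, A i j * A i (j + 2) ≤ A i (j + 1) ^ 2) ∧
      (∀ i j, A i j * A (i + 2) j ≤ A (i + 1) j ^ 2) := by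
  intro n
  refine ⟨pell_triple (n + 1), ?_⟩
  choose A hA using H53M.AA_nat n
  refine ⟨A, ⟨?_, ?_, ?_, ?_, ?_⟩, ?_, ?_, ?_⟩
  · intro i j h
    have := H53M.AA_high n i j h
    rw [hA i j] at this
    exact_mod_cast this
  · refine ⟨(n + 1 : ℕ), (n : ℕ), (2 * (n + 1) : ℕ), ?_⟩
    rw [zpow_natCast, zpow_natCast, zpow_natCast]
    have h1 := H53M.chain_formula x y z w pell x_ne y_ne w_mul (by simp only [pell])
      (by simp only [pell]) (fun m => (pell_ne m).1)
      (fun m => by rw [pell]; exact div_mul_cancel₀ _ (pell_ne m).1) (n + 1)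
    rw [show n + 1 + 1 = n + 2 from rfl] at h1
    have h2 : pell (n + 2) * (x ^ (n + 1) * y ^ n * z ^ (2 * (n + 1))) = H53M.GG (n + 1) x y z := by
      refine mul_left_cancel₀ y_ne ?_
      rw [← h1]
      ring
    rw [h2, H53M.GG_expand n x y z x_ne]
    refine sum_congr rfl fun i _ => ?_
    have e : 2 * n + 3 - i = 2 * n + 2 + 1 - i := by omega
    rw [e]
    refine sum_congr rfl fun j _ => ?_
    unfold H53M.tm
    rw [hA i j, map_natCast]
  · refine ⟨2 * n + 2, fun h => ?_⟩
    apply H53M.AA_corner_y n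
    rw [hA, h]; simp
  · refine ⟨2 * n + 2, fun h => ?_⟩
    have := H53M.AA_corner_x n
    rw [hA, h] at this
    norm_num at this
  · refine ⟨2 * n + 2, 0, by omega, fun h => ?_⟩
    have := H53M.AA_corner_x n
    rw [hA, h] at this
    norm_num at this
  · intro i j
    have := H53M.AA_diag n i j
    rw [hA, hA, hA] at this
    exact_mod_cast this
  · intro i j
    have := H53M.AA_vert_all n i j
    rw [hA, hA, hA] at this
    exact_mod_cast this
  · intro i j
    have := H53M.AA_horiz_all n i j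
    rw [hA, hA, hA] at this
    exact_mod_cast this

end Pool.Agent.Results.MP_251428_co.PellChain
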